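import Pool.Agent.TF.Stmts

/-!
# TF, row GLU: the abstract glue lemma
-/

set_option autoImplicit false

namespace Pool.Agent.TF.H11

open Pool.Agent.TF

section tools

variable {Ω : Type} [Fintype Ω] {P : Law Ω}

theorem H_le (L : Lib) {S T : Type} {X : Ω → S} {Y : Ω → T} (h : P.Det X Y) : P.H Y ≤ P.H X :=
  L.mon.1 Ω S T P X Y h

theorem H_eq (L : Lib) {S T : Type} {X : Ω → S} {Y : Ω → T} (h : P.Det X Y) (h' : P.Det Y X) :
    P.H Y = P.H X :=
  le_antisymm (H_le L h) (H_le L h')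

/-- submodularity: `A` and `B` both determine `I`, together they determine `U` -/
theorem subm (L : Lib) {S T W Z : Type} {A : Ω → S} {B : Ω → T} {I : Ω → W} {U : Ω → Z}
    (hA : P.Det A I) (hB : P.Det B I) (hU : P.Det (fun ω => (A ω, B ω)) U) :
    P.H U + P.H I ≤ P.H A + P.H B := by
  have h := L.sub Ω S T W P A B I
  unfold Law.C at h
  have h1 : P.H U ≤ P.H (fun ω => (A ω, B ω, I ω)) := by
    apply H_le L
    intro ω ω' p p' e
    simp only [Prod.mk.injEq] at e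
    exact hU ω ω' p p' (by simp only [Prod.mk.injEq]; exact ⟨e.1, e.2.1⟩)
  have h2 : P.H (fun ω => (B ω, I ω)) ≤ P.H B := by
    apply H_le L
    intro ω ω' p p' e
    simp only [Prod.mk.injEq]
    exact ⟨e, hB ω ω' p p' e⟩
  have h3 : P.H (fun ω => (A ω, I ω)) ≤ P.H A := by
    apply H_le L
    intro ω ω' p p' e
    simp only [Prod.mk.injEq]
    exact ⟨e, hA ω ω' p p' e⟩
  linarith

theorem sl_symm {Ω' S : Type} [Fintype Ω'] {P' : Law Ω'} {X : Ω → S} {X' : Ω' → S}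
    (h : SameLaw P X P' X') : SameLaw P' X' P X := fun s => (h s).symm

theorem sl_trans {Ω' Ω'' S : Type} [Fintype Ω'] [Fintype Ω''] {P' : Law Ω'} {P'' : Law Ω''}
    {X : Ω → S} {X' : Ω' → S} {X'' : Ω'' → S} (h : SameLaw P X P' X') (h' : SameLaw P' X' P'' X'') :
    SameLaw P X P'' X'' := fun s => (h s).trans (h' s)

theorem sl_ae {S : Type} {X Y : Ω → S} (h : ∀ ω, P.p ω ≠ 0 → X ω = Y ω) : SameLaw P X P Y := by
  classical
  intro s
  unfold Law.q
  refine Finset.sum_congr rfl fun ω _ => ?_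
  by_cases h0 : P.p ω = 0
  · simp only [h0, ite_self]
  · rw [h ω h0]

theorem sl_map (L : Lib) {Ω' S T : Type} [Fintype Ω'] {P' : Law Ω'} {X : Ω → S} {X' : Ω' → S}
    (f : S → T) (h : SameLaw P X P' X') :
    SameLaw P (fun ω => f (X ω)) P' (fun ω => f (X' ω)) := L.sam.1 _ _ _ _ P P' X X' f h

theorem sl_H (L : Lib) {Ω' S : Type} [Fintype Ω'] {P' : Law Ω'} {X : Ω → S} {X' : Ω' → S}
    (h : SameLaw P X P' X') : P.H X = P'.H X' := L.sam.2.1 _ _ _ P P' X X' h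

end tools

/-- a coupling of two copies of `(x, c)` over `c` -/
structure Cpl {Ω X Cc : Type} [Fintype Ω] (P : Law Ω) (x : Ω → X) (c : Ω → Cc) (g : ℝ) where
  Ω' : Type
  inst : Fintype Ω'
  P' : Law Ω'
  x0 : Ω' → X
  x' : Ω' → X
  c' : Ω' → Cc
  s1 : SameLaw P' (fun ω => (x' ω, c' ω)) P (fun ω => (x ω, c ω))
  s0 : SameLaw P' (fun ω => (x0 ω, c' ω)) P (fun ω => (x ω, c ω))
  hg : 2 * P.C x c - g ≤ P'.C (fun ω => (x0 ω, x' ω)) c'

attribute [instance] Cpl.inst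

/-- gluing couplings over `(x, c)` -/
theorem glue (L : Lib) {Ω X Cc : Type} [Fintype Ω] (P : Law Ω) (x : Ω → X) (c : Ω → Cc) (g : ℝ) :
    ∀ (m : ℕ) (f : Fin m → Cpl P x c g), ∃ (Ω'' : Type) (_ : Fintype Ω'') (P'' : Law Ω'')
      (x'' : Ω'' → X) (c'' : Ω'' → Cc) (X0 : Ω'' → Fin m → X),
      SameLaw P'' (fun ω => (x'' ω, c'' ω)) P (fun ω => (x ω, c ω)) ∧
      (∀ i, SameLaw P'' (fun ω => (X0 ω i, (x'' ω, c'' ω))) (f i).P'
        (fun ω => ((f i).x0 ω, ((f i).x' ω, (f i).c' ω)))) ∧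
      P''.C X0 c'' - P''.C X0 (fun ω => (x'' ω, c'' ω)) ≤ m * g := by
  intro m
  induction m with
  | zero =>
    intro f
    refine ⟨Ω, inferInstance, P, x, c, fun _ i => i.elim0, fun _ => rfl, fun i => i.elim0, ?_⟩
    unfold Law.C
    have h1 : P.H (fun ω => ((fun i : Fin 0 => (i.elim0 : X)), c ω)) = P.H c := by
      apply H_eq L
      · intro ω ω' _ _ e
        simp only [Prod.mk.injEq, true_and]
        exact e
      · intro ω ω' _ _ e
        simp only [Prod.mk.injEq, true_and] at e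
        exact e
    have h2 : P.H (fun ω => ((fun i : Fin 0 => (i.elim0 : X)), (x ω, c ω))) =
        P.H (fun ω => (x ω, c ω)) := by
      apply H_eq L
      · intro ω ω' _ _ e
        rw [Prod.mk.injEq]
        exact ⟨rfl, e⟩
      · intro ω ω' _ _ e
        rw [Prod.mk.injEq] at e
        exact e.2
    rw [h1, h2]
    simp
  | succ m ih =>
    intro f
    obtain ⟨Ω₁, i₁, P₁, x₁, c₁, X₁, hs₁, hi₁, hI₁⟩ := ih (fun i => f i.castSucc)
    set K := f (Fin.last m) with hK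
    obtain ⟨Q, q1, q2, q3, -, q5⟩ := L.gl2 Ω₁ K.Ω' (X × Cc) P₁ K.P' (fun ω => (x₁ ω, c₁ ω))
      (fun ω => (K.x' ω, K.c' ω)) (sl_trans hs₁ (sl_symm K.s1))
    have hs : SameLaw Q (fun ω => (x₁ ω.1, c₁ ω.1)) P (fun ω => (x ω, c ω)) :=
      sl_trans (sl_map L (fun ω : Ω₁ => (x₁ ω, c₁ ω)) q1) hs₁
    refine ⟨Ω₁ × K.Ω', inferInstance, Q, fun ω => x₁ ω.1, fun ω => c₁ ω.1,
      fun ω => Fin.snoc (α := fun _ => X) (X₁ ω.1) (K.x0 ω.2), hs, ?_, ?_⟩
    · intro i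
      refine Fin.lastCases ?_ (fun j => ?_) i
      · simp only [Fin.snoc_last]
        have e1 : SameLaw Q (fun ω => (K.x0 ω.2, (x₁ ω.1, c₁ ω.1))) Q
            (fun ω => (K.x0 ω.2, (K.x' ω.2, K.c' ω.2))) := by
          apply sl_ae
          intro ω hω
          rw [(q3 ω hω).2.2]
        exact sl_trans e1 (sl_map L (fun ω : K.Ω' => (K.x0 ω, (K.x' ω, K.c' ω))) q2)
      · simp only [Fin.snoc_castSucc]
        exact sl_trans (sl_map L (fun ω : Ω₁ => (X₁ ω j, (x₁ ω, c₁ ω))) q1) (hi₁ j)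
    · have e5 := q5 (Fin m → X) X X₁ K.x0
      -- the new tuple is the pair of the old tuple and the new point
      have e6 : Q.H (fun ω => ((Fin.snoc (α := fun _ => X) (X₁ ω.1) (K.x0 ω.2) : Fin (m + 1) → X),
          (x₁ ω.1, c₁ ω.1))) = Q.H (fun ω => ((X₁ ω.1, K.x0 ω.2), (x₁ ω.1, c₁ ω.1))) := by
        apply H_eq L
        · intro ω ω' _ _ e
          rw [Prod.mk.injEq, Prod.mk.injEq] at e
          obtain ⟨⟨e1, e2⟩, e3⟩ := e
          rw [Prod.mk.injEq]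
          exact ⟨by rw [e1, e2], e3⟩
        · intro ω ω' _ _ e
          rw [Prod.mk.injEq] at e
          obtain ⟨e1, e2⟩ := e
          rw [Prod.mk.injEq, Prod.mk.injEq]
          refine ⟨⟨?_, ?_⟩, e2⟩
          · funext j
            have := congrFun e1 j.castSucc
            simpa using this
          · have := congrFun e1 (Fin.last m)
            simpa using this
      have e7 : Q.H (fun ω => ((Fin.snoc (α := fun _ => X) (X₁ ω.1) (K.x0 ω.2) : Fin (m + 1) → X),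
          c₁ ω.1)) ≤ Q.H (fun ω => (X₁ ω.1, c₁ ω.1)) + Q.H (fun ω => (K.x0 ω.2, c₁ ω.1)) -
          Q.H (fun ω => c₁ ω.1) := by
        have := subm L (P := Q) (A := fun ω => (X₁ ω.1, c₁ ω.1)) (B := fun ω => (K.x0 ω.2, c₁ ω.1))
          (I := fun ω => c₁ ω.1)
          (U := fun ω => ((Fin.snoc (α := fun _ => X) (X₁ ω.1) (K.x0 ω.2) : Fin (m + 1) → X),
            c₁ ω.1)) ?_ ?_ ?_
        · linarith
        · intro ω ω' _ _ e
          rw [Prod.mk.injEq] at e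
          exact e.2
        · intro ω ω' _ _ e
          rw [Prod.mk.injEq] at e
          exact e.2
        · intro ω ω' _ _ e
          rw [Prod.mk.injEq, Prod.mk.injEq, Prod.mk.injEq] at e
          obtain ⟨⟨e1, e2⟩, ⟨e3, e4⟩⟩ := e
          rw [Prod.mk.injEq]
          exact ⟨by rw [e1, e3], e2⟩
      have e8 : Q.H (fun ω => (K.x0 ω.2, c₁ ω.1)) = K.P'.H (fun ω => (K.x0 ω, K.c' ω)) := by
        have e1 : SameLaw Q (fun ω => (K.x0 ω.2, c₁ ω.1)) Q (fun ω => (K.x0 ω.2, K.c' ω.2)) := by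
          apply sl_ae
          intro ω hω
          have := (q3 ω hω).2.2
          rw [Prod.mk.injEq] at this
          rw [this.2]
        exact sl_H L (sl_trans e1 (sl_map L (fun ω : K.Ω' => (K.x0 ω, K.c' ω)) q2))
      have e9 : Q.H (fun ω => c₁ ω.1) = K.P'.H K.c' := by
        have e1 : SameLaw Q (fun ω => c₁ ω.1) Q (fun ω => K.c' ω.2) := by
          apply sl_ae
          intro ω hω
          have := (q3 ω hω).2.2
          rw [Prod.mk.injEq] at this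
          exact this.2
        exact sl_H L (sl_trans e1 (sl_map L (fun ω : K.Ω' => K.c' ω) q2))
      have e10 : Q.H (fun ω => (X₁ ω.1, c₁ ω.1)) = P₁.H (fun ω => (X₁ ω, c₁ ω)) :=
        sl_H L (sl_map L (fun ω : Ω₁ => (X₁ ω, c₁ ω)) q1)
      have e11 : Q.H (fun ω => c₁ ω.1) = P₁.H c₁ := sl_H L (sl_map L (fun ω : Ω₁ => c₁ ω) q1)
      -- the law of the last coupling
      have e12 : K.P'.H (fun ω => (K.x0 ω, K.c' ω)) = P.H (fun ω => (x ω, c ω)) := sl_H L K.s0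
      have e13 : K.P'.H (fun ω => (K.x' ω, K.c' ω)) = P.H (fun ω => (x ω, c ω)) := sl_H L K.s1
      have e14 : K.P'.H K.c' = P.H c := sl_H L (sl_map L (fun y : X × Cc => y.2) K.s1)
      have e15 : K.P'.H (fun ω => (K.x0 ω, (K.x' ω, K.c' ω))) =
          K.P'.H (fun ω => ((K.x0 ω, K.x' ω), K.c' ω)) := by
        apply H_eq L
        · intro ω ω' _ _ e
          simp only [Prod.mk.injEq] at e ⊢
          exact ⟨e.1.1, e.1.2, e.2⟩
        · intro ω ω' _ _ e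
          simp only [Prod.mk.injEq] at e ⊢
          exact ⟨⟨e.1, e.2.1⟩, e.2.2⟩
      have e16 := K.hg
      unfold Law.C at hI₁ e5 e16 ⊢
      push_cast
      rw [e6]
      linarith

/-- GLU -/
theorem glu (L : Lib) : GluStmt := by
  intro Ω X Cc A B S U V _ P x c α β m lam g _ hcp
  choose Ω' iΩ P' x0 x' c' φ ψ s1 s0 hg hsp using hcp
  obtain ⟨Ω₁, i₁, Q, y, d, Y, hs, hi, hI⟩ := glue L P x c g m
    (fun i => ⟨Ω' i, iΩ i, P' i, x0 i, x' i, c' i, s1 i, s0 i, hg i⟩)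
  -- the splitting of the labels
  have key : ∀ ω ω', Q.p ω ≠ 0 → Q.p ω' ≠ 0 → d ω = d ω' → Y ω = Y ω' → ∀ i,
      (lam i (y ω) (d ω) = lam i (y ω') (d ω') ↔
        (φ i (Y ω i) (d ω) (α (y ω) (d ω)) = φ i (Y ω' i) (d ω') (α (y ω') (d ω')) ∧
         ψ i (Y ω i) (d ω) (β (y ω) (d ω)) = ψ i (Y ω' i) (d ω') (β (y ω') (d ω')))) := by
    intro ω ω' h h' hd hY i
    obtain ⟨η, hη, e⟩ := L.sam.2.2.2.2 _ _ _ Q (P' i) _ _ (hi i) ω h
    obtain ⟨η', hη', e'⟩ := L.sam.2.2.2.2 _ _ _ Q (P' i) _ _ (hi i) ω' h'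
    simp only [Prod.mk.injEq] at e e'
    have k := hsp i η η' hη hη' (by rw [e.2.2, e'.2.2, hd]) (by rw [e.1, e'.1, hY])
    rw [e.1, e.2.1, e.2.2, e'.1, e'.2.1, e'.2.2] at k
    exact k
  -- transfer to `Q`
  have t1 : P.H (fun ω => (α (x ω) (c ω), ((fun i => lam i (x ω) (c ω)), c ω))) =
      Q.H (fun ω => (α (y ω) (d ω), ((fun i => lam i (y ω) (d ω)), d ω))) :=
    (sl_H L (sl_map L (fun z : X × Cc => (α z.1 z.2, ((fun i => lam i z.1 z.2), z.2))) hs)).symm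
  have t2 : P.H (fun ω => (β (x ω) (c ω), ((fun i => lam i (x ω) (c ω)), c ω))) =
      Q.H (fun ω => (β (y ω) (d ω), ((fun i => lam i (y ω) (d ω)), d ω))) :=
    (sl_H L (sl_map L (fun z : X × Cc => (β z.1 z.2, ((fun i => lam i z.1 z.2), z.2))) hs)).symm
  have t3 : P.H (fun ω => ((fun i => lam i (x ω) (c ω)), c ω)) =
      Q.H (fun ω => ((fun i => lam i (y ω) (d ω)), d ω)) :=
    (sl_H L (sl_map L (fun z : X × Cc => ((fun i => lam i z.1 z.2), z.2)) hs)).symm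
  have t4 : P.H (fun ω => (x ω, ((fun i => lam i (x ω) (c ω)), c ω))) =
      P.H (fun ω => (x ω, c ω)) := by
    apply H_eq L
    · intro ω ω' _ _ e
      simp only [Prod.mk.injEq] at e ⊢
      refine ⟨e.1, ?_, e.2⟩
      funext i
      rw [e.1, e.2]
    · intro ω ω' _ _ e
      simp only [Prod.mk.injEq] at e ⊢
      exact ⟨e.1, e.2.2⟩
  have t5 : P.H (fun ω => (x ω, c ω)) = Q.H (fun ω => (y ω, d ω)) := (sl_H L hs).symm
  have t6 : P.H c = Q.H d := (sl_H L (sl_map L (fun z : X × Cc => z.2) hs)).symm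
  have t7 : P.H (fun ω => (α (x ω) (c ω), c ω)) = Q.H (fun ω => (α (y ω) (d ω), d ω)) :=
    (sl_H L (sl_map L (fun z : X × Cc => (α z.1 z.2, z.2)) hs)).symm
  have t8 : P.H (fun ω => (β (x ω) (c ω), c ω)) = Q.H (fun ω => (β (y ω) (d ω), d ω)) :=
    (sl_H L (sl_map L (fun z : X × Cc => (β z.1 z.2, z.2)) hs)).symm
  -- abbreviations
  set La : Ω₁ → Fin m → S := fun ω i => lam i (y ω) (d ω) with hLa
  set a : Ω₁ → A := fun ω => α (y ω) (d ω) with ha
  set b : Ω₁ → B := fun ω => β (y ω) (d ω) with hb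
  set Uu : Ω₁ → Fin m → U := fun ω i => φ i (Y ω i) (d ω) (a ω) with hUu
  set Vv : Ω₁ → Fin m → V := fun ω i => ψ i (Y ω i) (d ω) (b ω) with hVv
  have key' : ∀ ω ω', Q.p ω ≠ 0 → Q.p ω' ≠ 0 → d ω = d ω' → Y ω = Y ω' →
      (La ω = La ω' ↔ (Uu ω = Uu ω' ∧ Vv ω = Vv ω')) := by
    intro ω ω' h h' hd hY
    have k := key ω ω' h h' hd hY
    constructor
    · intro e
      exact ⟨funext fun i => ((k i).1 (congrFun e i)).1, funext fun i => ((k i).1 (congrFun e i)).2⟩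
    · rintro ⟨e1, e2⟩
      exact funext fun i => (k i).2 ⟨congrFun e1 i, congrFun e2 i⟩
  have hUa : ∀ ω ω', d ω = d ω' → Y ω = Y ω' → a ω = a ω' → Uu ω = Uu ω' := by
    intro ω ω' h1 h2 h3
    funext i
    simp only [hUu]
    rw [h1, h2, h3]
  have hVb : ∀ ω ω', d ω = d ω' → Y ω = Y ω' → b ω = b ω' → Vv ω = Vv ω' := by
    intro ω ω' h1 h2 h3
    funext i
    simp only [hVv]
    rw [h1, h2, h3]
  have hay : ∀ ω ω', y ω = y ω' → d ω = d ω' → a ω = a ω' ∧ b ω = b ω' ∧ La ω = La ω' := by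
    intro ω ω' h1 h2
    simp only [ha, hb, hLa]
    rw [h1, h2]
    exact ⟨rfl, rfl, rfl⟩
  -- (1)
  have n1 : Q.H (fun ω => (Y ω, (y ω, d ω))) + Q.H (fun ω => (a ω, (La ω, d ω))) ≤
      Q.H (fun ω => (a ω, (La ω, (Y ω, d ω)))) + Q.H (fun ω => (y ω, d ω)) := by
    apply subm L
    · intro ω ω' _ _ e
      simp only [Prod.mk.injEq] at e ⊢
      exact ⟨e.1, e.2.1, e.2.2.2⟩
    · intro ω ω' _ _ e
      simp only [Prod.mk.injEq] at e ⊢
      have := hay ω ω' e.1 e.2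
      exact ⟨this.1, this.2.2, e.2⟩
    · intro ω ω' _ _ e
      simp only [Prod.mk.injEq] at e ⊢
      exact ⟨e.1.2.2.1, e.2.1, e.2.2⟩
  have n2 : Q.H (fun ω => (Y ω, (y ω, d ω))) + Q.H (fun ω => (b ω, (La ω, d ω))) ≤
      Q.H (fun ω => (b ω, (La ω, (Y ω, d ω)))) + Q.H (fun ω => (y ω, d ω)) := by
    apply subm L
    · intro ω ω' _ _ e
      simp only [Prod.mk.injEq] at e ⊢
      exact ⟨e.1, e.2.1, e.2.2.2⟩
    · intro ω ω' _ _ e
      simp only [Prod.mk.injEq] at e ⊢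
      have := hay ω ω' e.1 e.2
      exact ⟨this.2.1, this.2.2, e.2⟩
    · intro ω ω' _ _ e
      simp only [Prod.mk.injEq] at e ⊢
      exact ⟨e.1.2.2.1, e.2.1, e.2.2⟩
  have n3 : Q.H (fun ω => (La ω, (Y ω, d ω))) + Q.H d ≤
      Q.H (fun ω => (La ω, d ω)) + Q.H (fun ω => (Y ω, d ω)) := by
    apply subm L
    · intro ω ω' _ _ e
      simp only [Prod.mk.injEq] at e
      exact e.2
    · intro ω ω' _ _ e
      simp only [Prod.mk.injEq] at e
      exact e.2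
    · intro ω ω' _ _ e
      simp only [Prod.mk.injEq] at e ⊢
      exact ⟨e.1.1, e.2.1, e.2.2⟩
  -- (2)
  have n4 : Q.H (fun ω => (a ω, (La ω, (Y ω, d ω)))) + Q.H (fun ω => (Uu ω, (Y ω, d ω))) ≤
      Q.H (fun ω => (a ω, (Y ω, d ω))) + Q.H (fun ω => (La ω, (Y ω, d ω))) := by
    apply subm L
    · intro ω ω' _ _ e
      simp only [Prod.mk.injEq] at e ⊢
      exact ⟨hUa ω ω' e.2.2 e.2.1 e.1, e.2.1, e.2.2⟩
    · intro ω ω' p p' e
      simp only [Prod.mk.injEq] at e ⊢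
      exact ⟨((key' ω ω' p p' e.2.2 e.2.1).1 e.1).1, e.2.1, e.2.2⟩
    · intro ω ω' _ _ e
      simp only [Prod.mk.injEq] at e ⊢
      exact ⟨e.1.1, e.2.1, e.2.2.1, e.2.2.2⟩
  have n5 : Q.H (fun ω => (b ω, (La ω, (Y ω, d ω)))) + Q.H (fun ω => (Y ω, d ω)) ≤
      Q.H (fun ω => (b ω, (Y ω, d ω))) + Q.H (fun ω => (Uu ω, (Y ω, d ω))) := by
    apply subm L
    · intro ω ω' _ _ e
      simp only [Prod.mk.injEq] at e ⊢
      exact e.2
    · intro ω ω' _ _ e
      simp only [Prod.mk.injEq] at e ⊢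
      exact e.2
    · intro ω ω' p p' e
      simp only [Prod.mk.injEq] at e ⊢
      have e1 := hVb ω ω' e.1.2.2 e.1.2.1 e.1.1
      exact ⟨e.1.1, (key' ω ω' p p' e.1.2.2 e.1.2.1).2 ⟨e.2.1, e1⟩, e.1.2.1, e.1.2.2⟩
  -- (3)
  have n6 : Q.H (fun ω => (a ω, (Y ω, d ω))) + Q.H d ≤
      Q.H (fun ω => (a ω, d ω)) + Q.H (fun ω => (Y ω, d ω)) := by
    apply subm L
    · intro ω ω' _ _ e
      simp only [Prod.mk.injEq] at e
      exact e.2
    · intro ω ω' _ _ e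
      simp only [Prod.mk.injEq] at e
      exact e.2
    · intro ω ω' _ _ e
      simp only [Prod.mk.injEq] at e ⊢
      exact ⟨e.1.1, e.2.1, e.2.2⟩
  have n7 : Q.H (fun ω => (b ω, (Y ω, d ω))) + Q.H d ≤
      Q.H (fun ω => (b ω, d ω)) + Q.H (fun ω => (Y ω, d ω)) := by
    apply subm L
    · intro ω ω' _ _ e
      simp only [Prod.mk.injEq] at e
      exact e.2
    · intro ω ω' _ _ e
      simp only [Prod.mk.injEq] at e
      exact e.2
    · intro ω ω' _ _ e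
      simp only [Prod.mk.injEq] at e ⊢
      exact ⟨e.1.1, e.2.1, e.2.2⟩
  unfold Law.C at hI ⊢
  rw [t1, t2, t3, t4, t5, t6, t7, t8]
  linarith

end Pool.Agent.TF.H11
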